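import Mathlib

set_option autoImplicit false

open Finset

namespace UCorr

/-- all orderings (lowest first) of the first `k` steps through the list `S` compatible with `lt` -/
def exts {α : Type} [DecidableEq α] (lt : α → α → Bool) : ℕ → List α → List (List α)
  | 0, _ => [[]]
  | (k + 1), S => S.flatMap fun a =>
      if S.all (fun b => !lt b a) then (exts lt k (S.erase a)).map (a :: ·) else []

theorem mem_exts {α : Type} [DecidableEq α] (lt : α → α → Bool) (hirr : ∀ a, lt a a = false) :
    ∀ (k : ℕ) (S l : List α), S.Nodup → S.length = k →
      (l ∈ exts lt k S ↔ l.Perm S ∧ l.Pairwise (fun x y => lt y x = false)) := by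
  intro k
  induction k with
  | zero =>
    intro S l _ hk
    have : S = [] := List.length_eq_zero_iff.1 hk
    subst this
    simp only [exts, List.mem_singleton, List.perm_nil]
    constructor
    · rintro rfl; exact ⟨rfl, List.Pairwise.nil⟩
    · rintro ⟨rfl, _⟩; rfl
  | succ k ih =>
    intro S l hS hk
    simp only [exts, List.mem_flatMap]
    constructor
    · rintro ⟨a, ha, hl⟩
      by_cases hall : (S.all fun b => !lt b a) = true
      · rw [if_pos hall, List.mem_map] at hl
        obtain ⟨l', hl', rfl⟩ := hl
        have h1 := (ih (S.erase a) l' (hS.erase a) (by rw [List.length_erase_of_mem ha, hk]; rfl)).1 hl'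
        refine ⟨?_, ?_⟩
        · exact (h1.1.cons a).trans (List.perm_cons_erase ha).symm
        · rw [List.pairwise_cons]
          refine ⟨fun y hy => ?_, h1.2⟩
          have hyS : y ∈ S := List.mem_of_mem_erase (h1.1.mem_iff.1 hy)
          have := List.all_eq_true.1 hall y hyS
          simpa using this
      · rw [if_neg hall] at hl
        exact absurd hl (List.not_mem_nil)
    · rintro ⟨hp, hpw⟩
      cases l with
      | nil =>
        have := hp.length_eq
        rw [hk] at this
        simp at this
      | cons a l' =>
        have ha : a ∈ S := hp.mem_iff.1 (List.mem_cons_self)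
        rw [List.pairwise_cons] at hpw
        refine ⟨a, ha, ?_⟩
        have hall : (S.all fun b => !lt b a) = true := by
          rw [List.all_eq_true]
          intro b hb
          rcases List.mem_cons.1 (hp.mem_iff.2 hb) with rfl | hb'
          · simp [hirr]
          · simp [hpw.1 b hb']
        rw [if_pos hall, List.mem_map]
        refine ⟨l', ?_, rfl⟩
        rw [ih (S.erase a) l' (hS.erase a) (by rw [List.length_erase_of_mem ha, hk]; rfl)]
        exact ⟨List.Perm.cons_inv (hp.trans (List.perm_cons_erase ha)), hpw.2⟩

theorem nodup_exts {α : Type} [DecidableEq α] (lt : α → α → Bool) :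
    ∀ (k : ℕ) (S : List α), S.Nodup → (exts lt k S).Nodup := by
  intro k
  induction k with
  | zero => intro S _; simp [exts]
  | succ k ih =>
    intro S hS
    simp only [exts]
    rw [List.nodup_flatMap]
    refine ⟨fun a ha => ?_, ?_⟩
    · split_ifs
      · exact (ih _ (hS.erase a)).map (fun x y h => (List.cons.inj h).2)
      · exact List.nodup_nil
    · refine List.Pairwise.imp ?_ hS
      intro a b hab
      show List.Disjoint _ _
      rw [List.disjoint_left]
      intro l h1 h2
      beta_reduce at h1 h2
      have g1 : ∃ l', l = a :: l' := by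
        split_ifs at h1
        · obtain ⟨l', _, h⟩ := List.mem_map.1 h1
          exact ⟨l', h.symm⟩
        · exact absurd h1 List.not_mem_nil
      have g2 : ∃ l', l = b :: l' := by
        split_ifs at h2
        · obtain ⟨l', _, h⟩ := List.mem_map.1 h2
          exact ⟨l', h.symm⟩
        · exact absurd h2 List.not_mem_nil
      obtain ⟨l1, e1⟩ := g1
      obtain ⟨l2, e2⟩ := g2
      rw [e1] at e2
      exact hab (List.cons.inj e2).1

theorem idx_ofFn {n : ℕ} (L : Fin n ≃ Fin n) (x : Fin n) :
    (List.ofFn (fun i => L.symm i)).idxOf x = (L x : ℕ) := by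
  have hnd : (List.ofFn (fun i => L.symm i)).Nodup := List.nodup_ofFn.2 L.symm.injective
  have hlen : (L x : ℕ) < (List.ofFn (fun i => L.symm i)).length := by
    rw [List.length_ofFn]; exact (L x).2
  have h := hnd.idxOf_getElem (L x : ℕ) hlen
  have e : (List.ofFn (fun i => L.symm i))[(L x : ℕ)] = x := by
    rw [List.getElem_ofFn]
    simp
  rw [e] at h
  exact h

/-- The enumeration `exts` counts linear extensions with a prescribed event on three elements. -/
theorem card_exts {n : ℕ} (lt : Fin n → Fin n → Bool) (hirr : ∀ a, lt a a = false)
    (a b c : Fin n) (P : Bool → Bool → Bool → Bool) :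
    Nat.card {L : Fin n ≃ Fin n // (∀ x y, lt x y = true → L x < L y) ∧
        P (decide (L a < L b)) (decide (L a < L c)) (decide (L b < L c)) = true} =
      (exts lt n (List.finRange n)).countP (fun l =>
        P (decide (l.idxOf a < l.idxOf b)) (decide (l.idxOf a < l.idxOf c))
          (decide (l.idxOf b < l.idxOf c))) := by
  rw [List.countP_eq_length_filter]
  set T := (exts lt n (List.finRange n)).filter (fun l =>
        P (decide (l.idxOf a < l.idxOf b)) (decide (l.idxOf a < l.idxOf c))
          (decide (l.idxOf b < l.idxOf c))) with hT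
  have hTnd : T.Nodup := (nodup_exts lt n _ (List.nodup_finRange n)).filter _
  rw [← List.toFinset_card_of_nodup hTnd, ← Fintype.card_coe, ← Nat.card_eq_fintype_card]
  have hmem : ∀ L : Fin n ≃ Fin n, ((∀ x y, lt x y = true → L x < L y) ∧
        P (decide (L a < L b)) (decide (L a < L c)) (decide (L b < L c)) = true) ↔
        List.ofFn (fun i => L.symm i) ∈ T := by
    intro L
    rw [hT, List.mem_filter, mem_exts lt hirr n _ _ (List.nodup_finRange n) (List.length_finRange),
      idx_ofFn, idx_ofFn, idx_ofFn]
    have hnd : (List.ofFn (fun i => L.symm i)).Nodup := List.nodup_ofFn.2 L.symm.injective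
    have hperm : (List.ofFn (fun i => L.symm i)).Perm (List.finRange n) := by
      rw [List.perm_ext_iff_of_nodup hnd (List.nodup_finRange n)]
      intro x
      simp only [List.mem_finRange, iff_true, List.mem_ofFn]
      exact ⟨L x, by simp⟩
    have hpw : (List.ofFn (fun i => L.symm i)).Pairwise (fun x y => lt y x = false) ↔
        (∀ x y, lt x y = true → L x < L y) := by
      rw [List.pairwise_iff_getElem]
      constructor
      · intro h x y hxy
        by_contra hc
        rw [not_lt] at hc
        rcases hc.lt_or_eq with hc | hc
        · have := h (L y) (L x) (by rw [List.length_ofFn]; exact (L y).2)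
            (by rw [List.length_ofFn]; exact (L x).2) hc
          simp at this
          rw [this] at hxy
          exact absurd hxy (by simp)
        · have := L.injective hc
          rw [this, hirr] at hxy
          exact absurd hxy (by simp)
      · intro h i j hi hj hij
        rw [List.length_ofFn] at hi hj
        simp only [List.getElem_ofFn]
        by_contra hc
        have := h _ _ (Bool.eq_true_of_not_eq_false hc)
        simp at this
        omega
    rw [hpw]
    constructor
    · rintro ⟨h1, h2⟩
      exact ⟨⟨hperm, h1⟩, h2⟩
    · rintro ⟨⟨_, h1⟩, h2⟩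
      exact ⟨h1, h2⟩
  refine Nat.card_congr (Equiv.ofBijective
    (fun L => ⟨List.ofFn (fun i => L.1.symm i), List.mem_toFinset.2 ((hmem L.1).1 L.2)⟩) ⟨?_, ?_⟩)
  · rintro ⟨L1, h1⟩ ⟨L2, h2⟩ h
    have h' : List.ofFn (fun i => L1.symm i) = List.ofFn (fun i => L2.symm i) := congrArg Subtype.val h
    have h3 : (fun i => L1.symm i) = (fun i => L2.symm i) := List.ofFn_injective h'
    have h4 : L1.symm = L2.symm := Equiv.ext (fun i => congrFun h3 i)
    have h5 : L1 = L2 := by rw [← L1.symm_symm, h4, L2.symm_symm]
    exact Subtype.ext h5
  · rintro ⟨l, hl⟩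
    have hl' : l ∈ T := List.mem_toFinset.1 hl
    have hl2 := (List.mem_filter.1 hl').1
    rw [mem_exts lt hirr n _ _ (List.nodup_finRange n) (List.length_finRange)] at hl2
    have hnd : l.Nodup := hl2.1.nodup_iff.2 (List.nodup_finRange n)
    have hlen : l.length = n := by rw [hl2.1.length_eq, List.length_finRange]
    have hall : ∀ x, x ∈ l := fun x => hl2.1.mem_iff.2 (List.mem_finRange x)
    set e : Fin n ≃ Fin n := (finCongr hlen.symm).trans (hnd.getEquivOfForallMemList l hall) with he
    have hofn : List.ofFn (fun i => e.symm.symm i) = l := by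
      apply List.ext_getElem
      · rw [List.length_ofFn, hlen]
      · intro i h1 h2
        rw [List.getElem_ofFn]
        simp [he]
    refine ⟨⟨e.symm, (hmem e.symm).2 ?_⟩, ?_⟩
    · rw [hofn]; exact hl'
    · exact Subtype.ext hofn

end UCorr
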