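import Mathlib
import Pool.Agent.Helper496.UCorr.Exts

set_option autoImplicit false

open Finset

namespace UCorr

def wlt (lo hi : List ℕ) (n : ℕ) (x y : Fin n) : Bool :=
  if x.1 < 3 then
    if y.1 < 3 then false else decide (hi.getD x.1 0 < y.1 - 2)
  else
    if y.1 < 3 then decide (x.1 - 2 ≤ lo.getD y.1 0) else decide (x.1 < y.1)

def code {n : ℕ} (a b c : Fin n) (l : List (Fin n)) : Bool × Bool × Bool :=
  (decide (l.idxOf a < l.idxOf b), decide (l.idxOf a < l.idxOf c), decide (l.idxOf b < l.idxOf c))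

def allCodes : List (Bool × Bool × Bool) :=
  [(true, true, true), (true, true, false), (false, true, true), (false, false, true),
   (true, false, false), (false, false, false)]

def cvec {n : ℕ} (lt : Fin n → Fin n → Bool) (a b c : Fin n) : List ℕ :=
  allCodes.map fun t => ((exts lt n (List.finRange n)).map (code a b c)).count t

def lt5 : Fin 10 → Fin 10 → Bool := wlt [0,3,3] [3,3,7] 10
def lt6 : Fin 10 → Fin 10 → Bool := wlt [0,3,3] [7,3,3] 10

set_option maxRecDepth 100000 in
theorem cv1 : cvec lt5 0 1 2 = [20,4,5,1,1,1] := by decide +kernel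
set_option maxRecDepth 100000 in
theorem cv2 : cvec lt5 0 2 1 = [4,20,1,1,5,1] := by decide +kernel
set_option maxRecDepth 100000 in
theorem cv3 : cvec lt5 1 0 2 = [5,1,20,4,1,1] := by decide +kernel
set_option maxRecDepth 100000 in
theorem cv4 : cvec lt5 1 2 0 = [1,5,1,1,20,4] := by decide +kernel
set_option maxRecDepth 100000 in
theorem cv5 : cvec lt5 2 0 1 = [1,1,4,20,1,5] := by decide +kernel
set_option maxRecDepth 100000 in
theorem cv6 : cvec lt5 2 1 0 = [1,1,1,5,4,20] := by decide +kernel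
set_option maxRecDepth 100000 in
theorem cv7 : cvec lt6 0 1 2 = [4,4,1,5,1,5] := by decide +kernel
set_option maxRecDepth 100000 in
theorem cv8 : cvec lt6 1 0 2 = [1,5,4,4,5,1] := by decide +kernel
set_option maxRecDepth 100000 in
theorem cv9 : cvec lt6 1 2 0 = [5,1,5,1,4,4] := by decide +kernel

theorem irr5 : ∀ a, lt5 a a = false := by decide +kernel
theorem irr6 : ∀ a, lt6 a a = false := by decide +kernel
theorem tr5 : ∀ a b c, lt5 a b = true → lt5 b c = true → lt5 a c = true := by decide +kernel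
theorem tr6 : ∀ a b c, lt6 a b = true → lt6 b c = true → lt6 a c = true := by decide +kernel

def mat (c : Bool × Bool × Bool) (i j : Fin 3) : Bool :=
  match i, j with
  | 0, 1 => c.1
  | 1, 0 => !c.1
  | 0, 2 => c.2.1
  | 2, 0 => !c.2.1
  | 1, 2 => c.2.2
  | 2, 1 => !c.2.2
  | _, _ => false

def matL (i j : Fin 3) : List Bool := allCodes.map fun c => mat c i j

def dot : List ℕ → List Bool → ℕ
  | w :: ws, b :: bs => (bif b then w else 0) + dot ws bs
  | _, _ => 0

def andL : List Bool → List Bool → List Bool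
  | a :: as, b :: bs => (a && b) :: andL as bs
  | _, _ => []

def impL : List Bool → List Bool → Bool
  | a :: as, b :: bs => (!a || b) && impL as bs
  | _, _ => true

def vecs : List (List ℕ) :=
  [[20,4,5,1,1,1], [4,20,1,1,5,1], [5,1,20,4,1,1], [1,5,1,1,20,4], [1,1,4,20,1,5], [1,1,1,5,4,20],
   [4,4,1,5,1,5], [1,5,4,4,5,1], [5,1,5,1,4,4]]

def violB (u v : List Bool) : Bool :=
  vecs.any fun w => Nat.blt (dot w (andL u v) * dot w [true,true,true,true,true,true]) (dot w u * dot w v)

set_option maxRecDepth 100000 in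
theorem fin_check : ∀ u0 u1 u2 u3 u4 u5 v0 v1 v2 v3 v4 v5 : Bool,
    (impL [u0,u1,u2,u3,u4,u5] [v0,v1,v2,v3,v4,v5] = true ∨
      impL [v0,v1,v2,v3,v4,v5] [u0,u1,u2,u3,u4,u5] = true ∨
      violB [u0,u1,u2,u3,u4,u5] [v0,v1,v2,v3,v4,v5] = true ∨
      ∃ x y z : Fin 3, x ≠ y ∧ x ≠ z ∧ y ≠ z ∧
        (([u0,u1,u2,u3,u4,u5] = matL x z ∧ [v0,v1,v2,v3,v4,v5] = matL y z) ∨
         ([u0,u1,u2,u3,u4,u5] = matL z x ∧ [v0,v1,v2,v3,v4,v5] = matL z y))) := by
  decide +kernel

theorem countP_dot (p : Bool × Bool × Bool → Bool) (h1 : p (true, false, true) = false)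
    (h2 : p (false, true, false) = false) (l : List (Bool × Bool × Bool)) :
    l.countP p = dot (allCodes.map fun t => l.count t) (allCodes.map p) := by
  induction l with
  | nil => simp [allCodes, dot]
  | cons a l ih =>
    rw [List.countP_cons, ih]
    obtain ⟨a1, a2, a3⟩ := a
    cases a1 <;> cases a2 <;> cases a3 <;>
      simp [allCodes, dot, List.count_cons, h1, h2] <;> split <;> simp_all <;> omega

end UCorr
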