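import Mathlib

set_option autoImplicit false

open Finset

namespace UCorr

theorem inj_count_prop {X : Type} {n M : ℕ} (P : (X → X → Prop) → Prop) (s : Finset (Fin M))
    (h : s.card = n) (L : X ≃ Fin n) :
    P (fun a b => s.orderEmbOfFin h (L a) < s.orderEmbOfFin h (L b)) ↔
      P (fun a b => L a < L b) := by
  have e : (fun a b => s.orderEmbOfFin h (L a) < s.orderEmbOfFin h (L b)) =
      (fun a b : X => L a < L b) := by
    funext a b
    exact propext (s.orderEmbOfFin h).lt_iff_lt
  rw [e]

/-- Injective maps `X → Fin M` with an order-invariant property `P` correspond to pairs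
(`card X`-subset of `Fin M`, bijection `X ≃ Fin (card X)` with property `P`). -/
theorem inj_count {X : Type} [Fintype X] (M : ℕ) (P : (X → X → Prop) → Prop) :
    Nat.card {f : X → Fin M // Function.Injective f ∧ P (fun a b => f a < f b)} =
      M.choose (Fintype.card X) *
        Nat.card {L : X ≃ Fin (Fintype.card X) // P (fun a b => L a < L b)} := by
  classical
  let Φ : ({s : Finset (Fin M) // s.card = Fintype.card X} ×
      {L : X ≃ Fin (Fintype.card X) // P (fun a b => L a < L b)}) →
      {f : X → Fin M // Function.Injective f ∧ P (fun a b => f a < f b)} := fun p =>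
    ⟨fun a => p.1.1.orderEmbOfFin p.1.2 (p.2.1 a),
      (p.1.1.orderEmbOfFin p.1.2).injective.comp p.2.1.injective,
      (inj_count_prop P p.1.1 p.1.2 p.2.1).2 p.2.2⟩
  have hinj : Function.Injective Φ := by
    rintro ⟨⟨s, hs⟩, ⟨L, hL⟩⟩ ⟨⟨s', hs'⟩, ⟨L', hL'⟩⟩ h
    have hf : ∀ a, s.orderEmbOfFin hs (L a) = s'.orderEmbOfFin hs' (L' a) := fun a =>
      congrFun (congrArg Subtype.val h) a
    have hss : s = s' := by
      ext z
      constructor
      · intro hz
        have h1 : z ∈ Set.range (s.orderEmbOfFin hs) := by
          rw [Finset.range_orderEmbOfFin]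
          exact hz
        obtain ⟨i, rfl⟩ := h1
        have h2 := hf (L.symm i)
        rw [Equiv.apply_symm_apply] at h2
        rw [h2]
        exact Finset.orderEmbOfFin_mem _ _ _
      · intro hz
        have h1 : z ∈ Set.range (s'.orderEmbOfFin hs') := by
          rw [Finset.range_orderEmbOfFin]
          exact hz
        obtain ⟨i, rfl⟩ := h1
        have h2 := hf (L'.symm i)
        rw [Equiv.apply_symm_apply] at h2
        rw [← h2]
        exact Finset.orderEmbOfFin_mem _ _ _
    subst hss
    have hLL : L = L' := by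
      ext a
      exact congrArg Fin.val ((s.orderEmbOfFin hs).injective (hf a))
    subst hLL
    rfl
  have hsurj : Function.Surjective Φ := by
    rintro ⟨f, hf, hP⟩
    have hs : (univ.image f).card = Fintype.card X := by
      rw [Finset.card_image_of_injective _ hf, Finset.card_univ]
    let L0 : X → Fin (Fintype.card X) := fun a =>
      ((univ.image f).orderIsoOfFin hs).symm ⟨f a, Finset.mem_image_of_mem f (Finset.mem_univ a)⟩
    have hL0 : ∀ a, (univ.image f).orderEmbOfFin hs (L0 a) = f a := by
      intro a
      rw [← Finset.coe_orderIsoOfFin_apply]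
      change (((univ.image f).orderIsoOfFin hs (((univ.image f).orderIsoOfFin hs).symm
        ⟨f a, Finset.mem_image_of_mem f (Finset.mem_univ a)⟩) : _) : Fin M) = f a
      rw [OrderIso.apply_symm_apply]
    have hL0inj : Function.Injective L0 := by
      intro a b hab
      apply hf
      rw [← hL0 a, ← hL0 b, hab]
    have hL0bij : Function.Bijective L0 :=
      (Fintype.bijective_iff_injective_and_card L0).2 ⟨hL0inj, by rw [Fintype.card_fin]⟩
    have hfe : (fun a => (univ.image f).orderEmbOfFin hs (Equiv.ofBijective L0 hL0bij a)) = f :=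
      funext hL0
    refine ⟨⟨⟨univ.image f, hs⟩, ⟨Equiv.ofBijective L0 hL0bij, ?_⟩⟩, ?_⟩
    · rw [← inj_count_prop P (univ.image f) hs]
      have e2 : ∀ a, (univ.image f).orderEmbOfFin hs (Equiv.ofBijective L0 hL0bij a) = f a := hL0
      simp only [e2]
      exact hP
    · exact Subtype.ext hfe
  rw [← Nat.card_congr (Equiv.ofBijective Φ ⟨hinj, hsurj⟩), Nat.card_prod]
  congr 1
  rw [Nat.card_eq_fintype_card, Fintype.card_finset_len, Fintype.card_fin]

end UCorr
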