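import Mathlib

set_option autoImplicit false

open Finset

namespace UCorr

/-- the limit argument -/
theorem limit_arith (n a b c s : ℕ) (hn : 1 ≤ n)
    (h : ∀ M : ℕ, (M.choose n * a) * (M.choose n * b) ≤
      (M.choose n * c + n ^ 2 * M ^ (n - 1)) * (M.choose n * s + n ^ 2 * M ^ (n - 1))) :
    a * b ≤ c * s := by
  by_contra hcon
  push Not at hcon
  obtain ⟨m, rfl⟩ : ∃ m, n = m + 1 := ⟨n - 1, by omega⟩
  set K : ℕ := (m + 1).factorial * (m + 1) ^ (m + 2) * (c + s + 1) + 1 with hK
  set M : ℕ := m + K with hM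
  have hKpos : 1 ≤ K := by omega
  have h1 : K ^ (m + 1) ≤ (m + 1).factorial * M.choose (m + 1) := by
    have := Nat.pow_sub_le_descFactorial M (m + 1)
    have h2 : M + 1 - (m + 1) = K := by omega
    rw [h2, Nat.descFactorial_eq_factorial_mul_choose] at this
    exact this
  have h3 : M ≤ (m + 1) * K := by
    rw [hM]; nlinarith
  have h4 : M ^ m ≤ ((m + 1) * K) ^ m := Nat.pow_le_pow_left h3 m
  have hM' := h M
  set C := M.choose (m + 1) with hC
  have hm1 : m + 1 - 1 = m := by omega
  rw [hm1] at hM'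
  set e := (m + 1) ^ 2 * M ^ m with he
  have hfac : 0 < (m + 1).factorial := Nat.factorial_pos _
  have h5 : (m + 1).factorial * (e * (c + s + 1)) < (m + 1).factorial * C := by
    calc (m + 1).factorial * (e * (c + s + 1))
        ≤ (m + 1).factorial * (((m + 1) ^ 2 * ((m + 1) * K) ^ m) * (c + s + 1)) := by
          have : e ≤ (m + 1) ^ 2 * ((m + 1) * K) ^ m := by
            rw [he]; exact Nat.mul_le_mul_left _ h4
          exact Nat.mul_le_mul_left _ (Nat.mul_le_mul_right _ this)
      _ = ((m + 1).factorial * (m + 1) ^ (m + 2) * (c + s + 1)) * K ^ m := by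
          rw [mul_pow]; ring
      _ < K * K ^ m := by
          have hKm : 0 < K ^ m := by positivity
          apply Nat.mul_lt_mul_of_pos_right _ hKm
          omega
      _ = K ^ (m + 1) := by ring
      _ ≤ _ := h1
  have h6 : e * (c + s + 1) < C := Nat.lt_of_mul_lt_mul_left h5
  have h7 : e ≤ C := by nlinarith
  have h8 : C * C * (c * s + 1) ≤ C * C * (a * b) := Nat.mul_le_mul_left _ hcon
  have h9 : C * C ≤ C * (e * (c + s)) + e * e := by nlinarith
  have h10 : C * (e * (c + s) + e + 1) ≤ C * C := Nat.mul_le_mul_left _ (by nlinarith)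
  have h11 : e * e ≤ C * e := Nat.mul_le_mul_right _ h7
  have h12 : 0 < C := by omega
  nlinarith

end UCorr
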