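import Mathlib

set_option autoImplicit false

open Finset
open scoped FinsetFamily

namespace UCorr

section maps_corr_aux

open Classical in
/-- the change of variables -/
noncomputable def mapsCorrG {X : Type} (z : X) (M : ℕ) (f : X → Fin M) : X → ℤ :=
  fun x => if x = z then -((f z).val : ℤ) else ((f x).val : ℤ) - ((f z).val : ℤ)

/-- the conditions on the new variables -/
def mapsCorrQ {X : Type} [PartialOrder X] (z : X) (M : ℕ) (g : X → ℤ) : Prop :=
  (0 ≤ -g z ∧ -g z < M) ∧ (∀ x, x ≠ z → 0 ≤ g x - g z ∧ g x - g z < M) ∧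
    (∀ a b, a ≠ z → b ≠ z → a < b → g a ≤ g b) ∧ (∀ a, a < z → g a ≤ 0) ∧ (∀ b, z < b → 0 ≤ g b)

theorem mapsCorrG_z {X : Type} (z : X) (M : ℕ) (f : X → Fin M) :
    mapsCorrG z M f z = -((f z).val : ℤ) := by
  unfold mapsCorrG
  rw [if_pos rfl]

theorem mapsCorrG_ne {X : Type} (z : X) (M : ℕ) (f : X → Fin M) (x : X) (hx : x ≠ z) :
    mapsCorrG z M f x = ((f x).val : ℤ) - ((f z).val : ℤ) := by
  unfold mapsCorrG
  rw [if_neg hx]

theorem mapsCorrG_inj {X : Type} (z : X) (M : ℕ) : Function.Injective (mapsCorrG z M) := by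
  intro f f' h
  have hz : (f z).val = (f' z).val := by
    have := congrFun h z
    rw [mapsCorrG_z, mapsCorrG_z] at this
    omega
  funext x
  by_cases hx : x = z
  · rw [hx]
    exact Fin.ext hz
  · have := congrFun h x
    rw [mapsCorrG_ne z M f x hx, mapsCorrG_ne z M f' x hx] at this
    apply Fin.ext
    omega

theorem mapsCorr_Q {X : Type} [PartialOrder X] (z : X) (M : ℕ) (f : X → Fin M)
    (hf : ∀ a b, a < b → f a ≤ f b) : mapsCorrQ z M (mapsCorrG z M f) := by
  refine ⟨?_, ?_, ?_, ?_, ?_⟩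
  · rw [mapsCorrG_z]
    have := (f z).isLt
    omega
  · intro x hx
    rw [mapsCorrG_z, mapsCorrG_ne z M f x hx]
    have := (f x).isLt
    omega
  · intro a b ha hb hab
    rw [mapsCorrG_ne z M f a ha, mapsCorrG_ne z M f b hb]
    have h1 : (f a).val ≤ (f b).val := hf a b hab
    omega
  · intro a ha
    rw [mapsCorrG_ne z M f a ha.ne]
    have h1 : (f a).val ≤ (f z).val := hf a z ha
    omega
  · intro b hb
    rw [mapsCorrG_ne z M f b hb.ne']
    have h1 : (f z).val ≤ (f b).val := hf z b hb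
    omega

theorem mapsCorr_ex {X : Type} [PartialOrder X] (z : X) (M : ℕ) (g : X → ℤ)
    (hg : mapsCorrQ z M g) : ∃ f : X → Fin M, (∀ a b, a < b → f a ≤ f b) ∧ mapsCorrG z M f = g := by
  classical
  obtain ⟨h1, h2, h3, h4, h5⟩ := hg
  have hv : ∀ x, 0 ≤ (if x = z then -g z else g x - g z) ∧
      (if x = z then -g z else g x - g z) < M := by
    intro x
    by_cases hx : x = z
    · rw [if_pos hx]
      exact h1
    · rw [if_neg hx]
      exact h2 x hx
  have hM : ∀ x, (if x = z then -g z else g x - g z).toNat < M := by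
    intro x
    have := hv x
    omega
  have hval : ∀ x, (((if x = z then -g z else g x - g z).toNat : ℕ) : ℤ) =
      if x = z then -g z else g x - g z := fun x => Int.toNat_of_nonneg (hv x).1
  refine ⟨fun x => ⟨(if x = z then -g z else g x - g z).toNat, hM x⟩, ?_, ?_⟩
  · intro a b hab
    show (if a = z then -g z else g a - g z).toNat ≤ (if b = z then -g z else g b - g z).toNat
    apply Int.toNat_le_toNat
    by_cases ha : a = z
    · have hb : b ≠ z := by
        rintro rfl
        exact hab.ne ha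
      rw [if_pos ha, if_neg hb]
      have := h5 b (ha ▸ hab)
      omega
    · by_cases hb : b = z
      · rw [if_neg ha, if_pos hb]
        have := h4 a (hb ▸ hab)
        omega
      · rw [if_neg ha, if_neg hb]
        have := h3 a b ha hb hab
        omega
  · funext x
    by_cases hx : x = z
    · rw [hx, mapsCorrG_z]
      show -(((if z = z then -g z else g z - g z).toNat : ℕ) : ℤ) = g z
      rw [hval, if_pos rfl]
      omega
    · rw [mapsCorrG_ne _ _ _ x hx]
      show (((if x = z then -g z else g x - g z).toNat : ℕ) : ℤ) -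
        (((if z = z then -g z else g z - g z).toNat : ℕ) : ℤ) = g x
      rw [hval, hval, if_pos rfl, if_neg hx]
      omega

theorem mapsCorr_inf {X : Type} [PartialOrder X] (z : X) (M : ℕ) (g h : X → ℤ)
    (hg : mapsCorrQ z M g) (hh : mapsCorrQ z M h) : mapsCorrQ z M (g ⊓ h) := by
  obtain ⟨h1, h2, h3, h4, h5⟩ := hg
  obtain ⟨k1, k2, k3, k4, k5⟩ := hh
  refine ⟨?_, ?_, ?_, ?_, ?_⟩
  · rw [Pi.inf_apply]
    rcases min_choice (g z) (h z) with e | e <;> rw [e] <;> assumption
  · intro x hx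
    have a1 := h2 x hx
    have a2 := k2 x hx
    rw [Pi.inf_apply, Pi.inf_apply]
    rcases le_total (g z) (h z) with e | e <;> rcases le_total (g x) (h x) with e' | e' <;>
      simp only [e, e', inf_of_le_left, inf_of_le_right] <;> omega
  · intro a b ha hb hab
    exact inf_le_inf (h3 a b ha hb hab) (k3 a b ha hb hab)
  · intro a ha
    exact inf_le_left.trans (h4 a ha)
  · intro b hb
    exact le_inf (h5 b hb) (k5 b hb)

theorem mapsCorr_sup {X : Type} [PartialOrder X] (z : X) (M : ℕ) (g h : X → ℤ)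
    (hg : mapsCorrQ z M g) (hh : mapsCorrQ z M h) : mapsCorrQ z M (g ⊔ h) := by
  obtain ⟨h1, h2, h3, h4, h5⟩ := hg
  obtain ⟨k1, k2, k3, k4, k5⟩ := hh
  refine ⟨?_, ?_, ?_, ?_, ?_⟩
  · rw [Pi.sup_apply]
    rcases max_choice (g z) (h z) with e | e <;> rw [e] <;> assumption
  · intro x hx
    have a1 := h2 x hx
    have a2 := k2 x hx
    rw [Pi.sup_apply, Pi.sup_apply]
    rcases le_total (g z) (h z) with e | e <;> rcases le_total (g x) (h x) with e' | e' <;>
      simp only [e, e', sup_of_le_left, sup_of_le_right] <;> omega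
  · intro a b ha hb hab
    exact sup_le_sup (h3 a b ha hb hab) (k3 a b ha hb hab)
  · intro a ha
    exact sup_le (h4 a ha) (k4 a ha)
  · intro b hb
    exact (h5 b hb).trans le_sup_left

theorem mapsCorr_below {X : Type} (z : X) (M : ℕ) (f : X → Fin M) :
    {x | f x < f z} = {x | x ≠ z ∧ mapsCorrG z M f x < 0} := by
  ext x
  simp only [Set.mem_setOf_eq]
  constructor
  · intro h
    have hx : x ≠ z := by
      rintro rfl
      exact lt_irrefl _ h
    refine ⟨hx, ?_⟩
    rw [mapsCorrG_ne z M f x hx]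
    have h1 : (f x).val < (f z).val := h
    omega
  · rintro ⟨hx, h⟩
    rw [mapsCorrG_ne z M f x hx] at h
    show (f x).val < (f z).val
    omega

theorem mapsCorr_nat {Y : Type} [Fintype Y] (p : Y → Prop) [DecidablePred p] :
    Nat.card {f : Y // p f} = #(univ.filter p) := by
  rw [Nat.card_eq_fintype_card, Fintype.card_subtype]

end maps_corr_aux

/-- **Lattice (Shepp) inequality for order preserving maps.** `U`, `V` are families of subsets of `X`
closed under taking supersets. `f` runs over the order preserving maps `X → Fin M`. -/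
theorem maps_corr {X : Type} [Fintype X] [PartialOrder X] (z : X) (M : ℕ)
    (U V : Set (Set X)) (hU : ∀ A B : Set X, A ⊆ B → A ∈ U → B ∈ U)
    (hV : ∀ A B : Set X, A ⊆ B → A ∈ V → B ∈ V) :
    Nat.card {f : X → Fin M // (∀ a b, a < b → f a ≤ f b) ∧ {x | f x < f z} ∈ U} *
      Nat.card {f : X → Fin M // (∀ a b, a < b → f a ≤ f b) ∧ {x | f x < f z} ∈ V} ≤
    Nat.card {f : X → Fin M // (∀ a b, a < b → f a ≤ f b) ∧ {x | f x < f z} ∈ U ∧ {x | f x < f z} ∈ V} *
      Nat.card {f : X → Fin M // ∀ a b, a < b → f a ≤ f b} := by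
  classical
  rw [mapsCorr_nat, mapsCorr_nat, mapsCorr_nat, mapsCorr_nat]
  have hinj := mapsCorrG_inj z M
  rw [← card_image_of_injective (univ.filter (fun f : X → Fin M =>
      (∀ a b, a < b → f a ≤ f b) ∧ {x | f x < f z} ∈ U)) hinj,
    ← card_image_of_injective (univ.filter (fun f : X → Fin M =>
      (∀ a b, a < b → f a ≤ f b) ∧ {x | f x < f z} ∈ V)) hinj,
    ← card_image_of_injective (univ.filter (fun f : X → Fin M =>
      (∀ a b, a < b → f a ≤ f b) ∧ {x | f x < f z} ∈ U ∧ {x | f x < f z} ∈ V)) hinj,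
    ← card_image_of_injective (univ.filter (fun f : X → Fin M =>
      (∀ a b, a < b → f a ≤ f b))) hinj]
  refine (le_card_infs_mul_card_sups _ _).trans (Nat.mul_le_mul (card_le_card ?_) (card_le_card ?_))
  · intro g hg
    obtain ⟨g1, hg1, g2, hg2, rfl⟩ := mem_infs.1 hg
    obtain ⟨f1, hf1, rfl⟩ := mem_image.1 hg1
    obtain ⟨f2, hf2, rfl⟩ := mem_image.1 hg2
    simp only [mem_filter, mem_univ, true_and] at hf1 hf2
    obtain ⟨f, hf, hfG⟩ := mapsCorr_ex z M _ (mapsCorr_inf z M _ _ (mapsCorr_Q z M f1 hf1.1)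
      (mapsCorr_Q z M f2 hf2.1))
    refine mem_image.2 ⟨f, ?_, hfG⟩
    simp only [mem_filter, mem_univ, true_and]
    refine ⟨hf, ?_, ?_⟩
    · refine hU _ _ ?_ hf1.2
      rw [mapsCorr_below, mapsCorr_below, hfG]
      rintro x ⟨hx, hx2⟩
      exact ⟨hx, lt_of_le_of_lt inf_le_left hx2⟩
    · refine hV _ _ ?_ hf2.2
      rw [mapsCorr_below, mapsCorr_below, hfG]
      rintro x ⟨hx, hx2⟩
      exact ⟨hx, lt_of_le_of_lt inf_le_right hx2⟩
  · intro g hg
    obtain ⟨g1, hg1, g2, hg2, rfl⟩ := mem_sups.1 hg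
    obtain ⟨f1, hf1, rfl⟩ := mem_image.1 hg1
    obtain ⟨f2, hf2, rfl⟩ := mem_image.1 hg2
    simp only [mem_filter, mem_univ, true_and] at hf1 hf2
    obtain ⟨f, hf, hfG⟩ := mapsCorr_ex z M _ (mapsCorr_sup z M _ _ (mapsCorr_Q z M f1 hf1.1)
      (mapsCorr_Q z M f2 hf2.1))
    refine mem_image.2 ⟨f, ?_, hfG⟩
    simp only [mem_filter, mem_univ, true_and]
    exact hf


end UCorr
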