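import Mathlib

set_option autoImplicit false

open Finset

namespace UCorr

theorem noninj_count_ne {X : Type} [Fintype X] [DecidableEq X] (b : X) :
    Fintype.card {x : X // x ≠ b} = Fintype.card X - 1 := by
  rw [Fintype.card_subtype_compl, Fintype.card_subtype_eq]

/-- there are at most `n² M^(n-1)` non-injective maps `X → Fin M`, `n = card X` -/
theorem noninj_count {X : Type} [Fintype X] (M : ℕ) :
    Nat.card {f : X → Fin M // ¬ Function.Injective f} ≤
      Fintype.card X ^ 2 * M ^ (Fintype.card X - 1) := by
  classical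
  have hex : ∀ f : {f : X → Fin M // ¬ Function.Injective f},
      ∃ p : X × X, p.1 ≠ p.2 ∧ f.1 p.1 = f.1 p.2 := by
    rintro ⟨f, hf⟩
    rw [Function.Injective] at hf
    push Not at hf
    obtain ⟨a, b, h1, h2⟩ := hf
    exact ⟨(a, b), h2, h1⟩
  choose P hP1 hP2 using hex
  let F : {f : X → Fin M // ¬ Function.Injective f} →
      Σ p : X × X, ({x : X // x ≠ p.2} → Fin M) := fun f => ⟨P f, fun x => f.1 x.1⟩
  let G : (Σ p : X × X, ({x : X // x ≠ p.2} → Fin M)) → X → Option (Fin M) :=
    fun s x => if h : x ≠ s.1.2 then some (s.2 ⟨x, h⟩) else none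
  have hF : Function.Injective F := by
    intro f g h
    have h1 : P f = P g := congrArg Sigma.fst h
    have h2 : ∀ x : X, x ≠ (P f).2 → f.1 x = g.1 x := by
      intro x hx
      have h3 := congrFun (congrArg G h) x
      have hx' : x ≠ (P g).2 := by rwa [← h1]
      have e1 : G (F f) x = some (f.1 x) := dif_pos hx
      have e2 : G (F g) x = some (g.1 x) := dif_pos hx'
      rw [e1, e2] at h3
      exact Option.some.inj h3
    apply Subtype.ext
    funext x
    by_cases hx : x = (P f).2
    · have h4 := h2 (P f).1 (hP1 f)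
      rw [hx, ← hP2 f, h4, h1]
      exact hP2 g
    · exact h2 x hx
  have hc := Nat.card_le_card_of_injective F hF
  refine hc.trans (le_of_eq ?_)
  rw [Nat.card_eq_fintype_card, Fintype.card_sigma]
  simp only [Fintype.card_fun, Fintype.card_fin, noninj_count_ne]
  rw [Finset.sum_const, Finset.card_univ, Fintype.card_prod, smul_eq_mul, pow_two]

end UCorr
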