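import Mathlib
import Pool.Agent.Helper496.UCorr.MapsCorr
import Pool.Agent.Helper496.UCorr.InjCount
import Pool.Agent.Helper496.UCorr.NonInj
import Pool.Agent.Helper496.UCorr.Limit

set_option autoImplicit false

open Finset

namespace UCorr

theorem natcard_mono {Y : Type} [Finite Y] (p q : Y → Prop) (h : ∀ y, p y → q y) :
    Nat.card {y // p y} ≤ Nat.card {y // q y} :=
  Nat.card_le_card_of_injective (fun y : {y // p y} => (⟨y.1, h y.1 y.2⟩ : {y // q y}))
    (fun a b hab => Subtype.ext (by simpa using hab))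

theorem natcard_le_add {Y : Type} [Finite Y] (p q r : Y → Prop) (h : ∀ y, p y → q y ∨ r y) :
    Nat.card {y // p y} ≤ Nat.card {y // q y} + Nat.card {y // r y} := by
  classical
  rw [← Nat.card_sum]
  refine Nat.card_le_card_of_injective (fun y : {y // p y} =>
    if hq : q y.1 then (Sum.inl ⟨y.1, hq⟩ : {y // q y} ⊕ {y // r y})
    else Sum.inr ⟨y.1, (h y.1 y.2).resolve_left hq⟩) ?_
  intro a b hab
  apply Subtype.ext
  by_cases ha : q a.1 <;> by_cases hb : q b.1 <;> simp [ha, hb] at hab <;> assumption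

/-- star events are positively correlated (counting form) -/
theorem star_count {X : Type} [Fintype X] [PartialOrder X] (z : X)
    (U V : Set (Set X)) (hU : ∀ A B : Set X, A ⊆ B → A ∈ U → B ∈ U)
    (hV : ∀ A B : Set X, A ⊆ B → A ∈ V → B ∈ V) :
    Nat.card {L : X ≃ Fin (Fintype.card X) // (∀ a b, a < b → L a < L b) ∧ {x | L x < L z} ∈ U} *
      Nat.card {L : X ≃ Fin (Fintype.card X) // (∀ a b, a < b → L a < L b) ∧ {x | L x < L z} ∈ V} ≤
    Nat.card {L : X ≃ Fin (Fintype.card X) //
        (∀ a b, a < b → L a < L b) ∧ {x | L x < L z} ∈ U ∧ {x | L x < L z} ∈ V} *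
      Nat.card {L : X ≃ Fin (Fintype.card X) // ∀ a b, a < b → L a < L b} := by
  classical
  have hn : 1 ≤ Fintype.card X := Fintype.card_pos_iff.2 ⟨z⟩
  refine limit_arith (Fintype.card X) _ _ _ _ hn ?_
  intro M
  have key : ∀ W : Set (Set X),
      M.choose (Fintype.card X) * Nat.card {L : X ≃ Fin (Fintype.card X) //
        (∀ a b, a < b → L a < L b) ∧ {x | L x < L z} ∈ W} ≤
      Nat.card {f : X → Fin M // (∀ a b, a < b → f a ≤ f b) ∧ {x | f x < f z} ∈ W} := by
    intro W
    have h := inj_count (X := X) M (fun r => (∀ a b, a < b → r a b) ∧ {x | r x z} ∈ W)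
    rw [← h]
    apply natcard_mono
    rintro f ⟨-, h1, h2⟩
    exact ⟨fun a b hab => (h1 a b hab).le, h2⟩
  have key2 : ∀ P : (X → X → Prop) → Prop,
      Nat.card {f : X → Fin M // (∀ a b, a < b → f a ≤ f b) ∧ P (fun a b => f a < f b)} ≤
      M.choose (Fintype.card X) * Nat.card {L : X ≃ Fin (Fintype.card X) //
        (∀ a b, a < b → L a < L b) ∧ P (fun a b => L a < L b)} +
      Fintype.card X ^ 2 * M ^ (Fintype.card X - 1) := by
    intro P
    have h := inj_count (X := X) M (fun r => (∀ a b, a < b → r a b) ∧ P r)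
    rw [← h]
    refine (natcard_le_add _ (fun f : X → Fin M => Function.Injective f ∧
      (∀ a b, a < b → f a < f b) ∧ P (fun a b => f a < f b))
      (fun f => ¬ Function.Injective f) ?_).trans
      (Nat.add_le_add_left (noninj_count M) _)
    rintro f ⟨h1, h2⟩
    by_cases hf : Function.Injective f
    · left
      exact ⟨hf, fun a b hab => lt_of_le_of_ne (h1 a b hab) (fun he => hab.ne (hf he)), h2⟩
    · right; exact hf
  refine (Nat.mul_le_mul (key U) (key V)).trans ?_
  refine (maps_corr z M U V hU hV).trans ?_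
  refine Nat.mul_le_mul ?_ ?_
  · exact key2 (fun r => {x | r x z} ∈ U ∧ {x | r x z} ∈ V)
  · have := key2 (fun _ => True)
    simpa using this

end UCorr
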